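import Pool.Agent.Helper88.CG.Goals
import Pool.Agent.Helper33.RR.GT
import Pool.Agent.Helper59.RR.PW
import Pool.Agent.Helper74.PP.TL
import Pool.Agent.Helper85.RR.S1
import Pool.Agent.Helper49.GM.TS
import Pool.Agent.Helper24.PP.MA

/-!
# Two primes under the weight: upper bound (packet PB of project CG)
-/

set_option autoImplicit false

open Finset Filter Topology

open scoped Classical

namespace Pool.Agent.Helper72.CG

open Pool.Agent.Helper88.PP (pr Rg om Sf SS uu vv ee LA VV QQ cost)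
open Pool.Agent.Helper88.RR (gg ab TB WB wb nz DB VM)
open Pool.Agent.Helper88.GM (NI XI gB Sr In)
open Pool.Agent.Helper88.CG
open Pool.Agent.Helper33.RR (om_nonneg VM_nonneg VM_ge_one VV_nonneg ab_nonneg
  card_labels prod_labels gg_nonneg gg_succ)

/-- the label function on `P ∪ {j, j'}` -/
noncomputable def ext {P : Finset ℕ} (j j' : ℕ) (r : P → ℕ) (s t : ℕ) (i : ℕ) : ℕ :=
  if i = j then s else if i = j' then t else if h : i ∈ P then r ⟨i, h⟩ else 0

/-- the points -/
noncomputable def PP (j j' : ℕ) (P : Finset ℕ) : Finset ℕ := insert j (insert j' P)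

theorem prod_PP {M : Type*} [CommMonoid M] {P : Finset ℕ} {j j' : ℕ} (hj : j ∉ P) (hj' : j' ∉ P)
    (hjj : j ≠ j') (F : ℕ → ℕ → M) (r : P → ℕ) (s t : ℕ) :
    ∏ i : PP j j' P, F (ext j j' r s t i) i = F s j * (F t j' * ∏ i : P, F (r i) i) := by
  rw [Finset.prod_coe_sort (PP j j' P) (fun i => F (ext j j' r s t i) i)]
  unfold PP
  rw [Finset.prod_insert (by
    rw [mem_insert]
    push Not
    exact ⟨hjj, hj⟩), Finset.prod_insert hj']
  have h1 : ext j j' r s t j = s := by simp [ext]
  have h2 : ext j j' r s t j' = t := by simp [ext, hjj.symm]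
  rw [h1, h2]
  congr 2
  rw [← Finset.prod_coe_sort P]
  refine Finset.prod_congr rfl fun i _ => ?_
  have h3 : (i : ℕ) ≠ j := fun h => hj (h ▸ i.2)
  have h4 : (i : ℕ) ≠ j' := fun h => hj' (h ▸ i.2)
  simp [ext, h3, h4]

theorem nz_PP {P : Finset ℕ} {j j' : ℕ} (hj : j ∉ P) (hj' : j' ∉ P)
    (hjj : j ≠ j') (r : P → ℕ) (s t : ℕ) (hs : s ≠ 0) (ht : t ≠ 0) :
    nz (fun i : PP j j' P => ext j j' r s t i) = nz r + 2 := by
  unfold nz
  rw [Finset.card_filter, Finset.card_filter]
  have h := prod_PP (M := Multiplicative ℕ) hj hj' hjj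
    (fun a _ => Multiplicative.ofAdd (if a ≠ 0 then 1 else 0)) r s t
  have h2 : (∑ i : PP j j' P, if ext j j' r s t i ≠ 0 then 1 else 0) =
      (if s ≠ 0 then 1 else 0) + ((if t ≠ 0 then 1 else 0) + ∑ i : P, if r i ≠ 0 then 1 else 0) := h
  rw [h2, if_pos hs, if_pos ht]
  ring

/-- the coefficient -/
noncomputable def cf (m q z j j' V i v : ℕ) : ℝ :=
  if i = j ∨ i = j' then 1 / (VM V z * (Nat.totient v : ℝ)) else if v = 0 then 1 else - ab m q z v

theorem WB_eq {m q M z y : ℕ} {P : Finset ℕ} (n : ℕ) :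
    WB m q M z y P n = ∑ r ∈ TB m q M z P,
      (∏ i : P, (if r i = 0 then 1 else - ab m q z (r i))) *
        ∏ i : P, vv y z (r i) (n + (i : ℕ)) := by
  unfold WB
  refine Finset.sum_congr rfl fun r _ => ?_
  rw [Finset.prod_mul_distrib]

/-- sizes -/
theorem sizes (c C : ℝ) (hc : 0 < c) (hC : 0 < C) : ∃ E0 : ℕ, ∀ E : ℕ, E0 ≤ E → ∀ w : ℝ,
    w ^ 3 ≤ E → C ^ 2 * Real.exp w ^ 2 ≤ Real.exp (c * E) := by
  obtain ⟨E1, hE1⟩ := exists_nat_gt (max (512 / c ^ 3 + 1) (4 * |Real.log (C ^ 2)| / c + 1))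
  refine ⟨E1, fun E hE w hw => ?_⟩
  have hEr : (E1 : ℝ) ≤ E := by exact_mod_cast hE
  have h1 : 512 / c ^ 3 + 1 < E := lt_of_le_of_lt (le_max_left _ _) (hE1.trans_le hEr)
  have h2 : 4 * |Real.log (C ^ 2)| / c + 1 < E :=
    lt_of_le_of_lt (le_max_right _ _) (hE1.trans_le hEr)
  have hE1' : (1 : ℝ) < E := by
    have : 0 < 512 / c ^ 3 := by positivity
    linarith
  have h3 : w ≤ c * E / 8 := by
    by_contra hcon
    push Not at hcon
    have h4 : (c * E / 8) ^ 3 < w ^ 3 := pow_lt_pow_left₀ hcon (by positivity) (by norm_num)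
    have h5 : (E : ℝ) ≤ (c * E / 8) ^ 3 := by
      have h6 : 512 / c ^ 3 ≤ E := by linarith
      rw [div_le_iff₀ (by positivity)] at h6
      have h7 : (c * E / 8) ^ 3 = (E * c ^ 3) * (E ^ 2) / 512 := by ring
      rw [h7, le_div_iff₀ (by norm_num)]
      nlinarith
    linarith
  have h8 : Real.log (C ^ 2) ≤ c * E / 4 := by
    have h9 : 4 * |Real.log (C ^ 2)| / c ≤ E := by linarith
    rw [div_le_iff₀ hc] at h9
    have := le_abs_self (Real.log (C ^ 2))
    linarith
  have h10 : C ^ 2 ≤ Real.exp (c * E / 4) := by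
    rw [← Real.log_le_iff_le_exp (by positivity)]
    exact h8
  calc C ^ 2 * Real.exp w ^ 2 ≤ Real.exp (c * E / 4) * Real.exp (c * E / 8) ^ 2 := by
        gcongr
    _ = Real.exp (c * E / 4 + 2 * (c * E / 8)) := by
        rw [Real.exp_add, ← Real.exp_nat_mul]
        norm_num
    _ ≤ Real.exp (c * E) := by
        apply Real.exp_le_exp.2
        nlinarith

theorem pb (h : StmtTG) (h2 : StmtVP) : StmtPB := by
  obtain ⟨c, hc, E1, hTG⟩ := h
  obtain ⟨c2, hc2, E2, hVP⟩ := h2
  obtain ⟨cA, CA, hcA, hCA, hMA⟩ := Pool.Agent.Helper24.PP.ma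
  obtain ⟨co, hco, hom⟩ := Pool.Agent.Helper74.PP.om_lower
  obtain ⟨E3, hE3⟩ := sizes c co hc hco
  refine ⟨(64 / cA) ^ 2 + 1, by positivity, max (max E1 E2) (max E3 64), ?_⟩
  intro E z x y hE hSr b hb P hP hPo j hj j' hj' hjP hj'P hjj
  have hEE1 : E1 ≤ E := ((le_max_left _ _).trans (le_max_left _ _)).trans hE
  have hEE2 : E2 ≤ E := ((le_max_right _ _).trans (le_max_left _ _)).trans hE
  have hEE3 : E3 ≤ E := ((le_max_left _ _).trans (le_max_right _ _)).trans hE
  have hE64 : 64 ≤ E := ((le_max_right _ _).trans (le_max_right _ _)).trans hE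
  obtain ⟨v1, v2, v3, v4, v5, v6⟩ := hVP E hEE2
  have hEr : (64 : ℝ) ≤ E := by exact_mod_cast hE64
  have hz2 : 2 ≤ z := by
    have h1 := hSr.1
    have h2 : (2 : ℝ) ≤ Real.exp E := by
      have h3 := Real.add_one_le_exp (E : ℝ)
      linarith
    exact_mod_cast h2.trans h1
  obtain ⟨w1, w2⟩ := v6 z hz2
  set m := mE E with hm
  set q := qE E with hq
  set M := E / 16 with hM
  set V := E / 32 with hVd
  have hq1 : 1 ≤ q := by
    rw [hq]
    exact Nat.one_le_two_pow
  have hqm : q * m ≤ M := by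
    refine le_trans ?_ v2
    refine Nat.mul_le_mul_right _ ?_
    nlinarith
  have hV1 : 1 ≤ V := by omega
  have hV2 : 2 ≤ V := by omega
  have h2V : 2 * V ≤ M := by omega
  have hzE : z ^ E ≤ x := hSr.2.1
  have hx1 : 1 ≤ x := le_trans (Nat.one_le_pow _ _ (by omega)) hzE
  have hzV : z ^ V ≤ x / 32 := by
    rw [Nat.le_div_iff_mul_le (by norm_num)]
    calc z ^ V * 32 = z ^ V * 2 ^ 5 := by norm_num
      _ ≤ z ^ V * z ^ 5 := Nat.mul_le_mul_left _ (Nat.pow_le_pow_left hz2 5)
      _ = z ^ (V + 5) := (pow_add _ _ _).symm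
      _ ≤ z ^ E := Nat.pow_le_pow_right (by omega) (by omega)
      _ ≤ x := hzE
  have hyE : (E : ℝ) ^ 2 ≤ y := Pool.Agent.Helper49.GM.Sr_y hSr
  have hEy : E ≤ y := by
    have : (E : ℝ) ≤ y := by nlinarith
    exact_mod_cast this
  have hK : (M / m + 2) ^ 3 ≤ E := by
    refine le_trans ?_ v4
    calc (M / m + 2) ^ 3 ≤ (2 * (M / m + 2)) ^ 3 := Nat.pow_le_pow_left (by omega) 3
      _ ≤ (2 * (M / m + 2)) ^ 6 := Nat.pow_le_pow_right (by positivity) (by norm_num)
  have hK1 : M / m + 2 ≤ y := by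
    have : M / m + 2 ≤ (M / m + 2) ^ 3 := Nat.le_self_pow (by norm_num) _
    omega
  have homz := hom y z hz2
  have hom0 : 0 ≤ om y z := om_nonneg y z
  have hIn : In x (x / 32) x (QQ x) b := ⟨dvd_refl _, hb, by omega⟩
  have hQpos : 0 < QQ x := primorial_pos _
  have hXI : 0 ≤ XI (x / 32) x (QQ x) := Pool.Agent.Helper49.GM.XI_nonneg _ _ _
  have hPy : P.card ≤ y := by
    have := Finset.card_le_card hP
    rw [Nat.card_Icc] at this
    omega
  have hDt1 : 1 ≤ Dt E z y P := Pool.Agent.Helper85.RR.one_le_DB _ _ _ _ _ hPy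
  -- the data
  set P' : Finset ℕ := PP j j' P with hP'
  have hP'y : P' ⊆ Icc 1 y := by
    rw [hP']
    unfold PP
    exact insert_subset hj (insert_subset hj' hP)
  have hP'c : P'.card ≤ P.card + 2 := by
    rw [hP']
    unfold PP
    refine (Finset.card_insert_le _ _).trans ?_
    have := Finset.card_insert_le j' P
    omega
  have hP'o : (P'.card : ℝ) * om y z ≤ (E : ℝ) ^ 2 := by
    have h1 : (P'.card : ℝ) ≤ P.card + 2 := by exact_mod_cast hP'c
    calc (P'.card : ℝ) * om y z ≤ (P.card + 2) * om y z := mul_le_mul_of_nonneg_right h1 hom0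
      _ = P.card * om y z + 2 * om y z := by ring
      _ ≤ (E : ℝ) ^ 2 / 2 + 2 * 1 := by linarith [homz.2]
      _ ≤ (E : ℝ) ^ 2 := by nlinarith
  set S : Finset ℕ := SS z (z ^ V) with hS
  have hS0 : ∀ s ∈ S, s ≠ 0 := by
    intro s hs
    simp only [hS, SS, mem_filter, mem_Ico] at hs
    omega
  set Φ : (P → ℕ) × (ℕ × ℕ) → (P' → ℕ) := fun u i => ext j j' u.1 u.2.1 u.2.2 i with hΦ
  set T : Finset (P' → ℕ) := (TB m q M z P ×ˢ (S ×ˢ S)).image Φ with hT
  have hinj : Function.Injective Φ := by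
    rintro ⟨r, s, t⟩ ⟨r', s', t'⟩ heq
    simp only [hΦ] at heq
    have hjm : j ∈ P' := by rw [hP']; unfold PP; exact mem_insert_self _ _
    have hj'm : j' ∈ P' := by
      rw [hP']; unfold PP; exact mem_insert_of_mem (mem_insert_self _ _)
    have e1 := congrFun heq ⟨j, hjm⟩
    have e2 := congrFun heq ⟨j', hj'm⟩
    simp only [ext, if_true] at e1
    simp only [ext, if_true, if_neg hjj.symm] at e2
    have e3 : r = r' := by
      funext i
      have him : (i : ℕ) ∈ P' := by
        rw [hP']; unfold PP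
        exact mem_insert_of_mem (mem_insert_of_mem i.2)
      have e4 := congrFun heq ⟨i, him⟩
      have h3 : (i : ℕ) ≠ j := fun h => hjP (h ▸ i.2)
      have h4 : (i : ℕ) ≠ j' := fun h => hj'P (h ▸ i.2)
      simpa [ext, h3, h4] using e4
    rw [e1, e2, e3]
  set a : (P' → ℕ) → ℝ := fun r => ∏ i : P', cf m q z j j' V i (r i) with ha
  have haΦ : ∀ r s t, a (Φ (r, s, t)) = 1 / (VM V z * (Nat.totient s : ℝ)) *
      (1 / (VM V z * (Nat.totient t : ℝ)) *
        ∏ i : P, (if r i = 0 then 1 else - ab m q z (r i))) := by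
    intro r s t
    simp only [ha, hΦ]
    have h1 := prod_PP hjP hj'P hjj (fun v i => cf m q z j j' V i v) r s t
    refine h1.trans ?_
    congr 1
    · simp [cf]
    · congr 1
      · simp [cf]
      · refine Finset.prod_congr rfl fun i _ => ?_
        have h3 : (i : ℕ) ≠ j := fun h => hjP (h ▸ i.2)
        have h4 : (i : ℕ) ≠ j' := fun h => hj'P (h ▸ i.2)
        simp [cf, h3, h4]
  -- the function
  have hfun : ∀ n, ∑ r ∈ T, a r * ∏ i, vv y z (r i) (n + (i : ℕ)) =
      (∑ s ∈ S, 1 / (VM V z * (Nat.totient s : ℝ)) * vv y z s (n + j)) *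
      (∑ t ∈ S, 1 / (VM V z * (Nat.totient t : ℝ)) * vv y z t (n + j')) *
      WB m q M z y P n := by
    intro n
    rw [hT, Finset.sum_image (fun _ _ _ _ h => hinj h), Finset.sum_product]
    simp only [Finset.sum_product]
    rw [WB_eq, Finset.mul_sum]
    refine Finset.sum_congr rfl fun r _ => ?_
    rw [Finset.sum_mul_sum, Finset.sum_mul]
    refine Finset.sum_congr rfl fun s _ => ?_
    rw [Finset.sum_mul]
    refine Finset.sum_congr rfl fun t _ => ?_
    rw [haΦ]
    have h1 := prod_PP hjP hj'P hjj (fun v i => vv y z v (n + i)) r s t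
    simp only [hΦ]
    rw [h1]
    ring
  have hVM1 : 1 ≤ VM V z := VM_ge_one hV1 hz2
  have hone : ∀ k : ℕ, (∀ s ∈ S, vv y z s k = 1) →
      ∑ s ∈ S, 1 / (VM V z * (Nat.totient s : ℝ)) * vv y z s k = 1 := by
    intro k hk
    have h1 : ∀ s ∈ S, 1 / (VM V z * (Nat.totient s : ℝ)) * vv y z s k =
        1 / VM V z * (1 / (Nat.totient s : ℝ)) := by
      intro s hs
      rw [hk s hs, mul_one, one_div_mul_one_div]
    rw [Finset.sum_congr rfl h1, ← Finset.mul_sum]
    show 1 / VM V z * VM V z = 1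
    exact one_div_mul_cancel (by linarith)
  -- the second moment
  set F : Finset P' := univ.filter (fun i : P' => (i : ℕ) = j ∨ (i : ℕ) = j') with hF
  have hFc : F.card ≤ 2 := by
    rw [← Finset.card_image_of_injective F (Subtype.val_injective)]
    have : F.image (fun i : P' => (i : ℕ)) ⊆ {j, j'} := by
      intro i hi
      rw [mem_image] at hi
      obtain ⟨i', hi', rfl⟩ := hi
      rw [hF, mem_filter] at hi'
      rw [mem_insert, mem_singleton]
      exact hi'.2
    exact (Finset.card_le_card this).trans Finset.card_le_two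
  have hmemT : ∀ r' ∈ T, ∃ r s t, r ∈ TB m q M z P ∧ s ∈ S ∧ t ∈ S ∧ r' = Φ (r, s, t) := by
    intro r' hr'
    rw [hT, mem_image] at hr'
    obtain ⟨⟨r, s, t⟩, hrst, rfl⟩ := hr'
    rw [mem_product, mem_product] at hrst
    exact ⟨r, s, t, hrst.1, hrst.2.1, hrst.2.2, rfl⟩
  have hTG' := hTG E z x y hEE1 hSr (x / 32) x (QQ x) b hIn m q (M / m + 2) v1 hqm w1 hK P' hP'y
    hP'o T a F ∅ hFc (by simp) (by simp) ?_ ?_ (by simp) ?_ ?_ ?_
  · -- conclusion
    have hmain : ∑ r ∈ T, a r ^ 2 *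
        (gg y z (nz r) * ∏ i, (if r i = 0 then 1 else (Nat.totient (r i) : ℝ))) ≤
        om y z ^ 2 * Dt E z y P / VM V z ^ 2 := by
      rw [hT, Finset.sum_image (fun _ _ _ _ h => hinj h), Finset.sum_product]
      simp only [Finset.sum_product]
      have hVM0 : VM V z ≠ 0 := by linarith
      have hterm : ∀ r ∈ TB m q M z P, ∀ s ∈ S, ∀ t ∈ S, a (Φ (r, s, t)) ^ 2 *
          (gg y z (nz (Φ (r, s, t))) * ∏ i, (if Φ (r, s, t) i = 0 then 1 else
            (Nat.totient (Φ (r, s, t) i) : ℝ))) =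
          (gg y z (nz r + 2) * ∏ i : P,
            (if r i = 0 then 1 else ab m q z (r i) ^ 2 * (Nat.totient (r i) : ℝ))) *
          ((1 / VM V z ^ 2 * (1 / (Nat.totient s : ℝ))) *
            (1 / VM V z ^ 2 * (1 / (Nat.totient t : ℝ)))) := by
        intro r hr s hs t ht
        have hφ : ∀ v ∈ S, (Nat.totient v : ℝ) ≠ 0 := by
          intro v hv
          have : 0 < Nat.totient v := Nat.totient_pos.mpr (Nat.pos_of_ne_zero (hS0 v hv))
          exact_mod_cast this.ne'
        have h1 := nz_PP hjP hj'P hjj r s t (hS0 s hs) (hS0 t ht)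
        have h2 := prod_PP hjP hj'P hjj
          (fun v _ => if v = 0 then (1 : ℝ) else (Nat.totient v : ℝ)) r s t
        rw [haΦ]
        simp only [hΦ]
        rw [h1, h2, if_neg (hS0 s hs), if_neg (hS0 t ht)]
        have e3 : (∏ i : P, (if r i = 0 then (1 : ℝ) else - ab m q z (r i))) ^ 2 *
            ∏ i : P, (if r i = 0 then (1 : ℝ) else (Nat.totient (r i) : ℝ))
            = ∏ i : P, (if r i = 0 then (1 : ℝ) else
              ab m q z (r i) ^ 2 * (Nat.totient (r i) : ℝ)) := by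
          rw [← Finset.prod_pow, ← Finset.prod_mul_distrib]
          refine Finset.prod_congr rfl fun i _ => ?_
          split_ifs <;> ring
        rw [← e3]
        have f1 := hφ s hs
        have f2 := hφ t ht
        field_simp
      rw [Finset.sum_congr rfl fun r hr => Finset.sum_congr rfl fun s hs =>
        Finset.sum_congr rfl fun t ht => hterm r hr s hs t ht]
      have hS1 : ∑ s ∈ S, 1 / VM V z ^ 2 * (1 / (Nat.totient s : ℝ)) = 1 / VM V z := by
        rw [← Finset.mul_sum]
        show 1 / VM V z ^ 2 * VM V z = _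
        field_simp
      have hsum : ∀ r : P → ℕ, ∑ s ∈ S, ∑ t ∈ S, (gg y z (nz r + 2) * ∏ i : P,
            (if r i = 0 then 1 else ab m q z (r i) ^ 2 * (Nat.totient (r i) : ℝ))) *
          ((1 / VM V z ^ 2 * (1 / (Nat.totient s : ℝ))) *
            (1 / VM V z ^ 2 * (1 / (Nat.totient t : ℝ)))) =
          (gg y z (nz r + 2) * ∏ i : P,
            (if r i = 0 then 1 else ab m q z (r i) ^ 2 * (Nat.totient (r i) : ℝ))) /
            VM V z ^ 2 := by
        intro r
        have hA : ∀ (A : ℝ) (f : ℕ → ℝ), ∑ s ∈ S, ∑ t ∈ S, A * (f s * f t) =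
            A * ((∑ s ∈ S, f s) * ∑ s ∈ S, f s) := by
          intro A f
          rw [Finset.sum_mul_sum, Finset.mul_sum]
          exact Finset.sum_congr rfl fun s _ => (Finset.mul_sum _ _ _).symm
        rw [hA _ (fun s => 1 / VM V z ^ 2 * (1 / (Nat.totient s : ℝ))), hS1]
        field_simp
      rw [Finset.sum_congr rfl fun r _ => hsum r, ← Finset.sum_div]
      refine div_le_div_of_nonneg_right ?_ (by positivity)
      unfold Dt DB
      rw [Finset.mul_sum]
      refine Finset.sum_le_sum fun r hr => ?_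
      unfold wb
      have h2 := card_labels v1 hz2 hr
      have g1 : gg y z (nz r + 1 + 1) ≤ om y z * gg y z (nz r + 1) := gg_succ (by omega)
      have g2 : gg y z (nz r + 1) ≤ om y z * gg y z (nz r) := gg_succ (by omega)
      have g3 : gg y z (nz r + 2) ≤ om y z ^ 2 * gg y z (nz r) := by
        calc gg y z (nz r + 2) ≤ om y z * gg y z (nz r + 1) := g1
          _ ≤ om y z * (om y z * gg y z (nz r)) := mul_le_mul_of_nonneg_left g2 hom0
          _ = _ := by ring
      rw [← mul_assoc]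
      refine mul_le_mul_of_nonneg_right g3 (Finset.prod_nonneg fun i _ => ?_)
      split_ifs <;> positivity
    have hstep : ∑ n ∈ (NI (x / 32) x (QQ x) b).filter (fun n => (n + j).Prime ∧ (n + j').Prime),
        Wt E z y P n ^ 2 ≤
        ∑ n ∈ NI (x / 32) x (QQ x) b, (∑ r ∈ T, a r * ∏ i, vv y z (r i) (n + (i : ℕ))) ^ 2 := by
      rw [Finset.sum_filter]
      refine Finset.sum_le_sum fun n hn => ?_
      split_ifs with hpr
      · have hnx : x / 32 < n := by
          unfold NI at hn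
          rw [mem_filter, mem_Ioc] at hn
          exact hn.1.1
        have h1 := hone (n + j) fun s hs => Pool.Agent.Helper59.RR.vv_one hV2 hz2 hpr.1
          (n := n) (by omega) (by omega) hs
        have h2 := hone (n + j') fun s hs => Pool.Agent.Helper59.RR.vv_one hV2 hz2 hpr.2
          (n := n) (by omega) (by omega) hs
        rw [hfun, h1, h2, one_mul, one_mul]
        exact le_rfl
      · exact sq_nonneg _
    have herr : Real.exp (-(c * E)) ≤ (om y z / E) ^ 2 := by
      have hl1 : (E : ℝ) * Real.log z ≤ Real.log x := Pool.Agent.Helper49.GM.Sr_x hSr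
      have hlz : 0 < Real.log z := Real.log_pos (by exact_mod_cast (by omega : 1 < z))
      have hE0 : (0 : ℝ) < E := by linarith
      have hlx : 0 < Real.log x := lt_of_lt_of_le (by positivity) hl1
      have hs := hE3 E hEE3 (Real.log (Real.log x)) hSr.2.2.2.2.2
      rw [Real.exp_log hlx] at hs
      have h1 : 1 / (co * Real.log x) ≤ om y z / E := by
        rw [le_div_iff₀ hE0]
        refine le_trans ?_ homz.1
        rw [div_mul_eq_mul_div, one_mul, div_le_div_iff₀ (by positivity) (by positivity), one_mul]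
        nlinarith
      calc Real.exp (-(c * E)) ≤ (1 / (co * Real.log x)) ^ 2 := by
            rw [Real.exp_neg, div_pow, one_pow, ← one_div]
            apply one_div_le_one_div_of_le (by positivity)
            rw [mul_pow]
            exact hs
        _ ≤ _ := pow_le_pow_left₀ (by positivity) h1 2
    have hVMl : cA * E / 64 ≤ VM V z := by
      have h1 := (hMA z V hz2 hV1).1
      have h3 : (E : ℝ) / 64 ≤ V := by
        have : E ≤ 64 * V := by omega
        have h4 : (E : ℝ) ≤ 64 * V := by exact_mod_cast this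
        linarith
      calc cA * E / 64 = cA * (E / 64) := by ring
        _ ≤ cA * V := mul_le_mul_of_nonneg_left h3 hcA.le
        _ ≤ _ := h1
    have h1 := (abs_le.mp hTG').2
    have hE0 : (0 : ℝ) < E := by linarith
    have h3 : om y z ^ 2 * Dt E z y P / VM V z ^ 2 ≤ (64 / cA) ^ 2 * (Dt E z y P * (om y z / E) ^ 2) := by
      calc om y z ^ 2 * Dt E z y P / VM V z ^ 2 ≤ om y z ^ 2 * Dt E z y P / (cA * E / 64) ^ 2 := by
            gcongr
        _ = _ := by
            field_simp
    have h4 := mul_le_mul_of_nonneg_left (hmain.trans h3) hXI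
    have h5 : Real.exp (-(c * E)) * XI (x / 32) x (QQ x) ≤
        XI (x / 32) x (QQ x) * Dt E z y P * (om y z / E) ^ 2 := by
      calc Real.exp (-(c * E)) * XI (x / 32) x (QQ x) ≤
            (om y z / E) ^ 2 * XI (x / 32) x (QQ x) := mul_le_mul_of_nonneg_right herr hXI
        _ = XI (x / 32) x (QQ x) * 1 * (om y z / E) ^ 2 := by ring
        _ ≤ _ := by gcongr
    calc _ ≤ _ := hstep
      _ ≤ XI (x / 32) x (QQ x) * ∑ r ∈ T, a r ^ 2 *
          (gg y z (nz r) * ∏ i, (if r i = 0 then 1 else (Nat.totient (r i) : ℝ))) +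
          Real.exp (-(c * E)) * XI (x / 32) x (QQ x) := by linarith
      _ ≤ XI (x / 32) x (QQ x) * ((64 / cA) ^ 2 * (Dt E z y P * (om y z / E) ^ 2)) +
          XI (x / 32) x (QQ x) * Dt E z y P * (om y z / E) ^ 2 := add_le_add h4 h5
      _ = _ := by ring
  · intro r' hr' i hi _
    obtain ⟨r, s, t, hr, hs, ht, rfl⟩ := hmemT r' hr'
    rw [hF, mem_filter] at hi
    push Not at hi
    have hi2 := hi (mem_univ _)
    simp only [hΦ, ext, if_neg hi2.1, if_neg hi2.2]
    split_ifs with hiP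
    · have h1 := hr
      simp only [TB, mem_filter, Fintype.mem_piFinset, mem_insert] at h1
      exact h1.1 ⟨i, hiP⟩
    · exact Or.inl rfl
  · intro r' hr' i hi
    obtain ⟨r, s, t, hr, hs, ht, rfl⟩ := hmemT r' hr'
    rw [hF, mem_filter] at hi
    simp only [hΦ, ext]
    split_ifs with e1 e2
    · exact hs
    · exact ht
    · exact absurd hi.2 (by tauto)
    · exact absurd hi.2 (by tauto)
  · intro r' hr'
    obtain ⟨r, s, t, hr, hs, ht, rfl⟩ := hmemT r' hr'
    have h1 := nz_PP hjP hj'P hjj r s t (hS0 s hs) (hS0 t ht)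
    have h2 := card_labels v1 hz2 hr
    simp only [hΦ]
    rw [h1]
    omega
  · intro r' hr'
    obtain ⟨r, s, t, hr, hs, ht, rfl⟩ := hmemT r' hr'
    have h1 := prod_PP hjP hj'P hjj (fun v _ => max 1 v) r s t
    have h2 := prod_labels hz2 hr
    simp only [hΦ]
    rw [h1]
    have hs' : max 1 s ≤ z ^ V := by
      have := hs
      simp only [hS, SS, mem_filter, mem_Ico] at this
      omega
    have ht' : max 1 t ≤ z ^ V := by
      have := ht
      simp only [hS, SS, mem_filter, mem_Ico] at this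
      omega
    calc max 1 s * (max 1 t * ∏ i, max 1 (r i)) ≤ z ^ V * (z ^ V * z ^ M) :=
          Nat.mul_le_mul hs' (Nat.mul_le_mul ht' h2)
      _ = z ^ (V + V + M) := by ring
      _ ≤ z ^ (2 * (E / 16)) := Nat.pow_le_pow_right (by omega) (by omega)
  · intro r' hr'
    simp only [ha]
    rw [Finset.abs_prod]
    refine Finset.prod_le_prod (fun i _ => abs_nonneg _) fun i _ => ?_
    by_cases hi : i ∈ F
    · rw [if_pos hi]
      rw [hF, mem_filter] at hi
      unfold cf
      rw [if_pos hi.2, abs_of_nonneg (by have := VM_nonneg V z; positivity)]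
    · rw [if_neg hi, if_neg (by simp)]
      have hi2 : ¬ ((i : ℕ) = j ∨ (i : ℕ) = j') := fun h => hi (by rw [hF, mem_filter]; exact ⟨mem_univ _, h⟩)
      unfold cf
      rw [if_neg hi2]
      split_ifs
      · simp
      · rw [abs_neg, abs_of_nonneg (ab_nonneg _ _ _ _)]

end Pool.Agent.Helper72.CG
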